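import Mathlib

set_option autoImplicit false

/-!
# Regular non-bipartite graphs of diameter 2 and girth 4: uniqueness fails

Let `F(k,2)` be the class of `k`-regular non-bipartite graphs of diameter `2` and girth `4`.
It was conjectured that, with `p` the least prime divisor of `k` and `q = k / p`, the graph
`G_k(p,q)` is the unique member of `F(k,2)` on `3k - k/p` vertices.

We refute this: for every `k` whose least prime divisor is `11` (in particular for `k = 11`)
there is a graph in `F(k,2)` on `3k - k/11` vertices that is not isomorphic to `G_k(11, k/11)`.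

The graph is a blow-up (replace vertices by independent sets of prescribed sizes) of a Vega graph on
twelve vertices.
-/

namespace Pool.Agent.Results.MP_903317_co.VegaCounterexample

open SimpleGraph

/-- Membership in the class `F(k,d)`: the graph is `k`-regular, not bipartite, of diameter exactly
`d` and of girth exactly `2d`. -/
def InF (k d : ℕ) {V : Type} (G : SimpleGraph V) : Prop :=
  (∀ v, (G.neighborSet v).ncard = k) ∧ ¬ G.IsBipartite ∧
    G.ediam = (d : ℕ∞) ∧ G.egirth = ((2 * d : ℕ) : ℕ∞)

/-- Reduction of residues modulo `(3p-1)q` to residues modulo `3p-1`. -/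
def red (p q : ℕ) : ZMod ((3 * p - 1) * q) →+* ZMod (3 * p - 1) :=
  ZMod.castHom (Dvd.intro q rfl) (ZMod (3 * p - 1))

/-- The graph `G_k(p,q)` on the integers modulo `(3p-1)q`: the vertices `i`, `j` are adjacent if and
only if `i - j` is congruent to `1 + 3n` modulo `3p-1` for some `n` in `{0, ..., p-1}`. -/
def Gk (p q : ℕ) : SimpleGraph (ZMod ((3 * p - 1) * q)) where
  Adj i j := ∃ n : ℕ, n < p ∧ red p q (i - j) = 1 + 3 * (n : ZMod (3 * p - 1))
  symm := ⟨by
    rintro i j ⟨n, hn, h⟩
    refine ⟨p - 1 - n, by omega, ?_⟩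
    have h1 : red p q (j - i) = - red p q (i - j) := by
      rw [← map_neg, neg_sub]
    rw [h1, h, neg_eq_iff_add_eq_zero]
    have h3 : (1 + 3 * (n : ZMod (3 * p - 1)) + (1 + 3 * ((p - 1 - n : ℕ) : ZMod (3 * p - 1))))
        = ((1 + 3 * n + (1 + 3 * (p - 1 - n)) : ℕ) : ZMod (3 * p - 1)) := by
      push_cast
      ring
    rw [h3, ZMod.natCast_eq_zero_iff]
    exact ⟨1, by omega⟩⟩
  loopless := ⟨by
    rintro i ⟨n, hn, h⟩
    rw [sub_self, map_zero] at h
    have h4 : ((1 + 3 * n : ℕ) : ZMod (3 * p - 1)) = 0 := by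
      push_cast
      exact h.symm
    rw [ZMod.natCast_eq_zero_iff] at h4
    have := Nat.le_of_dvd (by omega) h4
    omega⟩

/-! ### The weighted Vega graph -/

/-- Edge list of the Vega graph on twelve vertices. The vertices `0..4` form a five-cycle
(the Andrasfai graph on five vertices, vertex `i` standing for `i+1`),
`5 = x`, `6 = a`, `7 = v`, `8 = c`, `9 = u`, `10 = b`, `11 = w`. -/
def edgeList : List (Fin 12 × Fin 12) :=
  [(0, 2), (0, 3), (1, 3), (1, 4), (2, 4),
   (6, 7), (7, 8), (8, 9), (9, 10), (10, 11), (11, 6),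
   (5, 6), (5, 8), (5, 10),
   (6, 0), (6, 1), (9, 0), (9, 1),
   (10, 2), (10, 3), (7, 2), (7, 3),
   (8, 4), (11, 4)]

/-- The Vega graph on twelve vertices. -/
def vega : SimpleGraph (Fin 12) :=
  SimpleGraph.fromRel (fun a b => (a, b) ∈ edgeList)

instance : DecidableRel vega.Adj := fun a b => by
  unfold vega
  simp only [SimpleGraph.fromRel_adj]
  infer_instance

/-- The class of each of the `32` vertices of the blow-up; the classes have sizes
`1,3,3,1,3,2,4,3,3,3,4,2`. -/
def cls : Fin 32 → Fin 12 :=
  ![0, 1, 1, 1, 2, 2, 2, 3, 4, 4, 4, 5, 5, 6, 6, 6, 6, 7, 7, 7, 8, 8, 8, 9, 9, 9,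
    10, 10, 10, 10, 11, 11]

lemma vega_triangleFree : ∀ a b c : Fin 12, vega.Adj a b → vega.Adj b c → ¬ vega.Adj a c := by
  decide

lemma vega_diam : ∀ a b : Fin 12, ¬ vega.Adj a b → ∃ c, vega.Adj a c ∧ vega.Adj c b := by
  decide

lemma vega_reg : ∀ a : Fin 12,
    (Finset.univ.filter (fun b : Fin 32 => vega.Adj a (cls b))).card = 11 := by
  decide

lemma cls_surj : Function.Surjective cls := by
  unfold Function.Surjective
  decide

/-- The vertex map from the blow-up to the Vega graph. -/
def f (q : ℕ) (x : Fin (32 * q)) : Fin 12 := cls (finProdFinEquiv.symm x).1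

/-- The blow-up on `32 q` vertices. -/
def blow (q : ℕ) : SimpleGraph (Fin (32 * q)) := vega.comap (f q)

lemma blow_adj (q : ℕ) (x y : Fin (32 * q)) : (blow q).Adj x y ↔ vega.Adj (f q x) (f q y) :=
  Iff.rfl

lemma f_mk (q : ℕ) (a : Fin 32) (i : Fin q) : f q (finProdFinEquiv (a, i)) = cls a := by
  simp [f]

lemma f_surj (q : ℕ) (hq : 0 < q) : Function.Surjective (f q) := by
  intro c
  obtain ⟨a, ha⟩ := cls_surj c
  exact ⟨finProdFinEquiv (a, ⟨0, hq⟩), by rw [f_mk, ha]⟩

lemma blow_reg (q : ℕ) (x : Fin (32 * q)) : ((blow q).neighborSet x).ncard = 11 * q := by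
  classical
  have h : (blow q).neighborSet x = finProdFinEquiv '' (((Finset.univ.filter
      (fun b : Fin 32 => vega.Adj (f q x) (cls b))) ×ˢ (Finset.univ : Finset (Fin q)) :
        Finset (Fin 32 × Fin q)) : Set (Fin 32 × Fin q)) := by
    ext y
    simp only [SimpleGraph.mem_neighborSet, blow_adj, Finset.coe_product, Finset.coe_filter,
      Finset.mem_univ, true_and, Finset.coe_univ, Set.mem_image, Set.mem_prod, Set.mem_ofPred_eq,
      Set.mem_univ, and_true, Prod.exists]
    constructor
    · intro h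
      exact ⟨(finProdFinEquiv.symm y).1, (finProdFinEquiv.symm y).2, h,
        finProdFinEquiv.apply_symm_apply y⟩
    · rintro ⟨a, i, h, rfl⟩
      rwa [f_mk]
  rw [h, Set.ncard_image_of_injective _ finProdFinEquiv.injective, Set.ncard_coe_finset,
    Finset.card_product, vega_reg, Finset.card_univ, Fintype.card_fin]

/-- A criterion for membership in `F(k,2)`. -/
lemma inF_of {V : Type} (G : SimpleGraph V) (k : ℕ)
    (hreg : ∀ v, (G.neighborSet v).ncard = k) (hbip : ¬ G.IsBipartite)
    (htri : ∀ a b c, G.Adj a b → G.Adj b c → ¬ G.Adj a c)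
    (hd : ∀ u v, ¬ G.Adj u v → ∃ w, G.Adj u w ∧ G.Adj w v)
    (hne : ∃ u v, u ≠ v ∧ ¬ G.Adj u v)
    (hc4 : ∃ a b c d, a ≠ c ∧ b ≠ d ∧ G.Adj a b ∧ G.Adj b c ∧ G.Adj c d ∧ G.Adj d a) :
    InF k 2 G := by
  refine ⟨hreg, hbip, ?_, ?_⟩
  · apply le_antisymm
    · apply ediam_le_of_edist_le
      intro u v
      by_cases h : G.Adj u v
      · have := (Walk.cons h Walk.nil).edist_le
        refine this.trans ?_
        simp
      · obtain ⟨w, h1, h2⟩ := hd u v h
        have := (Walk.cons h1 (Walk.cons h2 Walk.nil)).edist_le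
        refine this.trans ?_
        simp
    · obtain ⟨u, v, huv, hadj⟩ := hne
      refine le_trans ?_ (edist_le_ediam (u := u) (v := v))
      by_contra hlt
      rw [not_le] at hlt
      have hlt' : G.edist u v ≤ 1 := by
        have h2 : G.edist u v < (1 : ℕ∞) + 1 := by
          rw [one_add_one_eq_two]
          exact_mod_cast hlt
        exact Order.lt_add_one_iff_of_not_isMax (by simp) |>.mp h2
      have hne' : G.edist u v ≠ ⊤ := ne_top_of_le_ne_top (by simp) hlt'
      obtain ⟨w, hw⟩ := SimpleGraph.exists_walk_of_edist_ne_top hne'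
      rw [← hw] at hlt'
      have hlen : w.length ≤ 1 := by exact_mod_cast hlt'
      rcases Nat.le_one_iff_eq_zero_or_eq_one.mp hlen with h0 | h1
      · exact huv (Walk.eq_of_length_eq_zero h0)
      · exact hadj (Walk.adj_of_length_eq_one h1)
  · apply le_antisymm
    · obtain ⟨a, b, c, d, hac, hbd, hab, hbc, hcd, hda⟩ := hc4
      let w : G.Walk a a := Walk.cons hab (Walk.cons hbc (Walk.cons hcd (Walk.cons hda Walk.nil)))
      have hw : w.IsCycle := by
        have h1 := hab.ne
        have h2 := hbc.ne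
        have h3 := hcd.ne
        have h4 := hda.ne
        simp only [w, Walk.isCycle_def, Walk.isTrail_def]
        simp [hac, hbd, hac.symm, h1, h2, h3, h4, h1.symm, h4.symm]
      have := SimpleGraph.egirth_le_length hw
      refine this.trans ?_
      simp [w]
    · rw [SimpleGraph.le_egirth]
      intro a w hw
      have h3 := hw.three_le_length
      by_contra hlt
      have hlen : w.length = 3 := by
        have : w.length < 4 := by
          rw [not_le] at hlt
          exact_mod_cast hlt
        omega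
      obtain ⟨b, c, h1, h2, h3⟩ : ∃ b c, G.Adj a b ∧ G.Adj b c ∧ G.Adj c a := by
        match w, hlen with
        | .cons h1 (.cons h2 (.cons h3 .nil)), _ => exact ⟨_, _, h1, h2, h3⟩
      exact htri a b c h1 h2 h3.symm

lemma blow_inF (q : ℕ) (hq : 0 < q) : InF (11 * q) 2 (blow q) := by
  have hs := f_surj q hq
  choose g hg using hs
  apply inF_of
  · exact blow_reg q
  · rintro ⟨C⟩
    have key : ∀ a b : Fin 12, vega.Adj a b → C (g a) ≠ C (g b) := by
      intro a b hab
      apply C.valid
      rw [blow_adj, hg, hg]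
      exact hab
    have h1 := key 0 2 (by decide)
    have h2 := key 2 4 (by decide)
    have h3 := key 4 1 (by decide)
    have h4 := key 1 3 (by decide)
    have h5 := key 3 0 (by decide)
    revert h1 h2 h3 h4 h5
    generalize C (g 0) = c0
    generalize C (g 1) = c1
    generalize C (g 2) = c2
    generalize C (g 3) = c3
    generalize C (g 4) = c4
    revert c0 c1 c2 c3 c4
    decide
  · intro a b c
    exact vega_triangleFree _ _ _
  · intro u v h
    obtain ⟨c, h1, h2⟩ := vega_diam _ _ h
    refine ⟨g c, ?_, ?_⟩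
    · rw [blow_adj, hg]; exact h1
    · rw [blow_adj, hg]; exact h2
  · refine ⟨g 0, g 1, ?_, ?_⟩
    · intro h
      have := congrArg (f q) h
      rw [hg, hg] at this
      exact absurd this (by decide)
    · rw [blow_adj, hg, hg]
      decide
  · refine ⟨finProdFinEquiv (1, ⟨0, hq⟩), finProdFinEquiv (8, ⟨0, hq⟩),
      finProdFinEquiv (2, ⟨0, hq⟩), finProdFinEquiv (9, ⟨0, hq⟩), ?_, ?_, ?_, ?_, ?_, ?_⟩
    · intro h
      have := finProdFinEquiv.injective h
      simp at this
    · intro h
      have := finProdFinEquiv.injective h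
      simp at this
    all_goals
      rw [blow_adj, f_mk, f_mk]
      decide

/-! ### Twins in `G_k(p,q)` -/

lemma Gk_twin (p q : ℕ) (hp : 0 < p) (i j : ZMod ((3 * p - 1) * q))
    (h : ∀ x, (Gk p q).Adj i x ↔ (Gk p q).Adj j x) : red p q i = red p q j := by
  classical
  set S : Finset (ZMod (3 * p - 1)) :=
    (Finset.range p).image (fun n : ℕ => 1 + 3 * (n : ZMod (3 * p - 1))) with hS
  have hmem : ∀ i x : ZMod ((3 * p - 1) * q), (Gk p q).Adj i x ↔ red p q (i - x) ∈ S := by
    intro i x
    simp only [hS, Finset.mem_image, Finset.mem_range]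
    constructor
    · rintro ⟨n, hn, h⟩
      exact ⟨n, hn, h.symm⟩
    · rintro ⟨n, hn, h⟩
      exact ⟨n, hn, h.symm⟩
  have hthree : (3 : ZMod (3 * p - 1)) * (p : ZMod (3 * p - 1)) = 1 := by
    have h1 : ((3 * p : ℕ) : ZMod (3 * p - 1)) = ((3 * p - 1 + 1 : ℕ) : ZMod (3 * p - 1)) := by
      congr 1
      omega
    rw [Nat.cast_add, ZMod.natCast_self] at h1
    push_cast at h1
    rw [h1]
    ring
  have hcard : S.card = p := by
    rw [hS, Finset.card_image_of_injOn, Finset.card_range]
    intro a ha b hb hab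
    simp only [Finset.coe_range, Set.mem_Iio] at ha hb
    have hab' : (3 : ZMod (3 * p - 1)) * (a : ZMod (3 * p - 1)) = 3 * (b : ZMod (3 * p - 1)) := by
      have := hab
      simp only at this
      exact add_left_cancel this
    have h2 : (a : ZMod (3 * p - 1)) = (b : ZMod (3 * p - 1)) := by
      calc (a : ZMod (3 * p - 1)) = (3 * (p : ZMod (3 * p - 1))) * a := by rw [hthree, one_mul]
        _ = p * (3 * a) := by ring
        _ = p * (3 * b) := by rw [hab']
        _ = (3 * (p : ZMod (3 * p - 1))) * b := by ring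
        _ = b := by rw [hthree, one_mul]
    rw [ZMod.natCast_eq_natCast_iff] at h2
    have h3 := Nat.ModEq.eq_of_lt_of_lt h2 (by omega) (by omega)
    exact h3
  have hsurj : Function.Surjective (red p q) := ZMod.castHom_surjective _
  set d := red p q i - red p q j with hd
  have hshift : ∀ t, t ∈ S ↔ t - d ∈ S := by
    intro t
    obtain ⟨x, hx⟩ := hsurj (red p q i - t)
    have h1 := h x
    rw [hmem, hmem, map_sub, map_sub, hx] at h1
    have e1 : red p q i - (red p q i - t) = t := by ring
    have e2 : red p q j - (red p q i - t) = t - d := by rw [hd]; ring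
    rwa [e1, e2] at h1
  have himg : S.image (fun t => t - d) = S := by
    apply Finset.eq_of_subset_of_card_le
    · intro t ht
      simp only [Finset.mem_image] at ht
      obtain ⟨s, hs, rfl⟩ := ht
      exact (hshift s).mp hs
    · rw [Finset.card_image_of_injective _ (sub_left_injective)]
  have hsum : ∑ t ∈ S, t = ∑ t ∈ S, (t - d) := by
    conv_lhs => rw [← himg]
    rw [Finset.sum_image]
    intro a _ b _ hab
    exact sub_left_injective hab
  rw [Finset.sum_sub_distrib, Finset.sum_const, hcard, nsmul_eq_mul] at hsum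
  have hpd : (p : ZMod (3 * p - 1)) * d = 0 := by
    have := hsum
    have h5 : (p : ZMod (3 * p - 1)) * d = ∑ t ∈ S, t - (∑ t ∈ S, t - p * d) := by ring
    rw [h5, ← this, sub_self]
  have hd0 : d = 0 := by
    calc d = (3 * (p : ZMod (3 * p - 1))) * d := by rw [hthree, one_mul]
      _ = 3 * (p * d) := by ring
      _ = 0 := by rw [hpd, mul_zero]
  exact sub_eq_zero.mp hd0

lemma card_ker_red (p q : ℕ) (hp : 0 < p) :
    Nat.card ((red p q).toAddMonoidHom.ker) = q := by
  have h1 := AddSubgroup.card_mul_index ((red p q).toAddMonoidHom.ker)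
  have hsurj : Function.Surjective (red p q) := ZMod.castHom_surjective _
  have h2 : (red p q).toAddMonoidHom.ker.index = 3 * p - 1 := by
    rw [AddSubgroup.index_ker]
    have : (red p q).toAddMonoidHom.range = ⊤ := by
      rw [AddMonoidHom.range_eq_top]
      exact hsurj
    rw [this]
    simp
  rw [h2, Nat.card_zmod, mul_comm] at h1
  exact Nat.eq_of_mul_eq_mul_left (by omega) h1

lemma not_iso (q : ℕ) (hq : 0 < q) : IsEmpty (blow q ≃g Gk 11 q) := by
  constructor
  intro φ
  let idx : Fin 3 → Fin 32 := ![1, 2, 3]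
  have hidx : Function.Injective idx := by decide
  have hcls : ∀ t, cls (idx t) = 1 := by decide
  let ψ : Fin 3 × Fin q → ZMod ((3 * 11 - 1) * q) := fun x => φ (finProdFinEquiv (idx x.1, x.2))
  have hψ : Function.Injective ψ := by
    rintro ⟨s, i⟩ ⟨t, j⟩ h
    have h1 := φ.injective h
    have h2 := finProdFinEquiv.injective h1
    simp only [Prod.mk.injEq] at h2
    exact Prod.ext (hidx h2.1) h2.2
  have htw : ∀ x y, red 11 q (ψ x) = red 11 q (ψ y) := by
    intro x y
    apply Gk_twin 11 q (by norm_num)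
    intro z
    obtain ⟨w, rfl⟩ := φ.surjective z
    have e1 : (Gk 11 q).Adj (ψ x) (φ w) ↔ (blow q).Adj (finProdFinEquiv (idx x.1, x.2)) w :=
      φ.map_rel_iff
    have e2 : (Gk 11 q).Adj (ψ y) (φ w) ↔ (blow q).Adj (finProdFinEquiv (idx y.1, y.2)) w :=
      φ.map_rel_iff
    rw [e1, e2, blow_adj, blow_adj, f_mk, f_mk, hcls, hcls]
  let x0 : Fin 3 × Fin q := (0, ⟨0, hq⟩)
  let θ : Fin 3 × Fin q → (red 11 q).toAddMonoidHom.ker := fun x => ⟨ψ x - ψ x0, by
    rw [AddMonoidHom.mem_ker]
    change red 11 q (ψ x - ψ x0) = 0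
    rw [map_sub, htw x x0, sub_self]⟩
  have hθ : Function.Injective θ := by
    intro x y h
    have := congrArg Subtype.val h
    simp only [θ] at this
    exact hψ (sub_left_injective this)
  have hfin : Finite ((red 11 q).toAddMonoidHom.ker) := by
    apply Nat.finite_of_card_ne_zero
    rw [card_ker_red 11 q (by norm_num)]
    omega
  have := Nat.card_le_card_of_injective θ hθ
  rw [card_ker_red 11 q (by norm_num), Nat.card_prod, Nat.card_fin, Nat.card_fin] at this
  omega

/-- For every `k` whose least prime divisor is `11` there is a graph in `F(k,2)` with exactly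
`3k - k/11` vertices which is not isomorphic to `G_k(11, k/11)`. -/
theorem result (k : ℕ) (hk : k.minFac = 11) :
    ∃ G : SimpleGraph (Fin (3 * k - k / k.minFac)),
      InF k 2 G ∧ IsEmpty (G ≃g Gk k.minFac (k / k.minFac)) := by
  rw [hk]
  have hdvd : 11 ∣ k := hk ▸ Nat.minFac_dvd k
  obtain ⟨q, rfl⟩ := hdvd
  have hq : 0 < q := by
    rcases Nat.eq_zero_or_pos q with h | h
    · subst h
      simp at hk
    · exact h
  have h1 : 11 * q / 11 = q := by omega
  have h2 : 3 * (11 * q) - q = 32 * q := by omega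
  rw [h1, h2]
  exact ⟨blow q, blow_inF q hq, not_iso q hq⟩

end Pool.Agent.Results.MP_903317_co.VegaCounterexample
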